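import Pool.Agent.L7h63.CoxExt.Key

set_option autoImplicit false

/-!
# MP_07fa45_al: central extensions of Coxeter groups by a sign

For every Coxeter group `(W, S)` and every sign choice `c`, the sequence
`1 → ℤ/2 → W' → W → 1` is exact.

Idea. `W'` acts on `W × ℤ/2`: `s_i (g, e) = (g s_i, e + f(g, t))`, `t = g s_i g⁻¹`, where `f(g, t)` is
the sum of `δ(t, t')` over the inversions `t' ≠ t` of `g`. Here `δ` is a function on ordered pairs of
reflections whose sum over the ordered pairs of distinct reflections of `g W_{ij} g⁻¹` is `c_{ij}`: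
it is `c_{ab}` on the pair of canonical generators `h s_a h⁻¹, h s_b h⁻¹` of a finite rank two
parabolic subgroup (`h` of minimal length in `h W_{ab}`), in one of the two orders, and `0`
elsewhere. The element `q` acts by `(g, e) ↦ (g, e + 1)`.
-/

namespace Pool.Agent.Results.MP_07fa45_al.ExtensionExact

open Pool.Agent.L7h63.CoxExt

universe u v

variable {B : Type u} {M : CoxeterMatrix B} {W : Type v} [Group W]

/-- A sign choice for the Coxeter group `(W, S)`, `S = {cs.simple s}`: signs `c s t` for the pairs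
`s ≠ t` with `m(s,t) < ∞` (Mathlib codes `∞` by `0`), equal for pairs that are simultaneously
conjugate in `W`, and symmetric. (The values of `c` at the other pairs play no role.) -/
structure IsSignChoice (cs : CoxeterSystem M W) (c : B → B → ℤˣ) : Prop where
  conj : ∀ s t s' t' : B, s ≠ t → M s t ≠ 0 → s' ≠ t' → M s' t' ≠ 0 →
    (∃ g : W, g * cs.simple s * g⁻¹ = cs.simple s' ∧ g * cs.simple t * g⁻¹ = cs.simple t') →
    c s t = c s' t'
  symm : ∀ s t : B, s ≠ t → M s t ≠ 0 → c s t = c t s

/-- The relators of `W'`; the generator `some s` is `s ∈ S` and the generator `none` is `q`. -/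
def rels (M : CoxeterMatrix B) (c : B → B → ℤˣ) : Set (FreeGroup (Option B)) :=
  {x | ∃ s : B, x = FreeGroup.of (some s) ^ 2} ∪
  {FreeGroup.of none ^ 2} ∪
  {x | ∃ s : B, x = FreeGroup.of none * FreeGroup.of (some s) *
    (FreeGroup.of (some s) * FreeGroup.of none)⁻¹} ∪
  {x | ∃ s t : B, s ≠ t ∧ M s t ≠ 0 ∧ c s t = 1 ∧
    x = (FreeGroup.of (some s) * FreeGroup.of (some t)) ^ M s t} ∪
  {x | ∃ s t : B, s ≠ t ∧ M s t ≠ 0 ∧ c s t = -1 ∧
    x = (FreeGroup.of (some s) * FreeGroup.of (some t)) ^ M s t * (FreeGroup.of none)⁻¹}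

/-- The group `W'` given by the generators `S ∪ {q}` and the relations `s² = 1`, `q² = 1`,
`q s = s q`, `(s t)^m(s,t) = 1` if `c s t = 1` and `(s t)^m(s,t) = q` if `c s t = -1`. -/
abbrev Ext (M : CoxeterMatrix B) (c : B → B → ℤˣ) : Type u := PresentedGroup (rels M c)

/-- the generator `s` of `W'` -/
def gen (M : CoxeterMatrix B) (c : B → B → ℤˣ) (s : B) : Ext M c := PresentedGroup.of (some s)

/-- the element `q` of `W'` -/
def q (M : CoxeterMatrix B) (c : B → B → ℤˣ) : Ext M c := PresentedGroup.of none

section relations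

variable (M) (c : B → B → ℤˣ)

lemma gen_sq (s : B) : gen M c s ^ 2 = 1 := by
  have h : FreeGroup.of (some s) ^ 2 ∈ rels M c := by
    left; left; left; left; exact ⟨s, rfl⟩
  exact PresentedGroup.one_of_mem h

lemma q_sq : q M c ^ 2 = 1 := by
  have h : FreeGroup.of none ^ 2 ∈ rels M c := by
    left; left; left; right; rfl
  exact PresentedGroup.one_of_mem h

lemma q_comm (s : B) : q M c * gen M c s = gen M c s * q M c := by
  have h : FreeGroup.of none * FreeGroup.of (some s) *
      (FreeGroup.of (some s) * FreeGroup.of none)⁻¹ ∈ rels M c := by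
    left; left; right; exact ⟨s, rfl⟩
  have := PresentedGroup.one_of_mem h
  rw [map_mul, map_inv, mul_inv_eq_one] at this
  exact this

lemma rel_plus {s t : B} (h : s ≠ t) (h0 : M s t ≠ 0) (hc : c s t = 1) :
    (gen M c s * gen M c t) ^ M s t = 1 := by
  have h : (FreeGroup.of (some s) * FreeGroup.of (some t)) ^ M s t ∈ rels M c := by
    left; right; exact ⟨s, t, h, h0, hc, rfl⟩
  exact PresentedGroup.one_of_mem h

lemma rel_minus {s t : B} (h : s ≠ t) (h0 : M s t ≠ 0) (hc : c s t = -1) :
    (gen M c s * gen M c t) ^ M s t = q M c := by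
  have h : (FreeGroup.of (some s) * FreeGroup.of (some t)) ^ M s t * (FreeGroup.of none)⁻¹ ∈
      rels M c := by
    right; exact ⟨s, t, h, h0, hc, rfl⟩
  have := PresentedGroup.one_of_mem h
  rw [map_mul, map_inv, mul_inv_eq_one] at this
  exact this

lemma q_central (x : Ext M c) : q M c * x = x * q M c := by
  have hx : x ∈ Subgroup.centralizer {q M c} := by
    have : (⊤ : Subgroup (Ext M c)) ≤ Subgroup.centralizer {q M c} := by
      rw [← PresentedGroup.closure_range_of, Subgroup.closure_le]
      rintro _ ⟨o, rfl⟩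
      rw [SetLike.mem_coe, Subgroup.mem_centralizer_singleton_iff]
      cases o with
      | none => rfl
      | some s => exact (q_comm M c s).symm
    exact this (Subgroup.mem_top x)
  rw [Subgroup.mem_centralizer_singleton_iff] at hx
  exact hx.symm

end relations

/-- A group homomorphism out of `W'`. -/
lemma exists_lift {c : B → B → ℤˣ} {G : Type*} [Group G] (f : B → G) (z : G)
    (h1 : ∀ s, f s ^ 2 = 1) (h2 : z ^ 2 = 1) (h3 : ∀ s, z * f s = f s * z)
    (h4 : ∀ s t, s ≠ t → M s t ≠ 0 → c s t = 1 → (f s * f t) ^ M s t = 1)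
    (h5 : ∀ s t, s ≠ t → M s t ≠ 0 → c s t = -1 → (f s * f t) ^ M s t = z) :
    ∃ φ : Ext M c →* G, (∀ s, φ (gen M c s) = f s) ∧ φ (q M c) = z := by
  let F : Option B → G := fun o => o.elim z f
  have hF : ∀ r ∈ rels M c, FreeGroup.lift F r = 1 := by
    intro r hr
    rcases hr with (((⟨s, rfl⟩ | hr) | ⟨s, rfl⟩) | ⟨s, t, h, h0, hc, rfl⟩) | ⟨s, t, h, h0, hc, rfl⟩
    · simpa [F] using h1 s
    · rw [Set.mem_singleton_iff] at hr
      subst hr
      simpa [F] using h2
    · have := h3 s
      rw [← mul_inv_eq_one] at this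
      simpa [F] using this
    · simpa [F] using h4 s t h h0 hc
    · have := h5 s t h h0 hc
      rw [← mul_inv_eq_one] at this
      simpa [F] using this
  refine ⟨PresentedGroup.toGroup hF, ?_, ?_⟩
  · intro s
    exact PresentedGroup.toGroup.of hF
  · exact PresentedGroup.toGroup.of hF

lemma hom_ext' {c : B → B → ℤˣ} {G : Type*} [Group G] {φ ψ : Ext M c →* G}
    (h : ∀ s, φ (gen M c s) = ψ (gen M c s)) (hq : φ (q M c) = ψ (q M c)) : φ = ψ := by
  apply PresentedGroup.ext
  intro o
  cases o with
  | none => exact hq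
  | some s => exact h s

/-- `q ≠ 1` in `W'`. -/
theorem q_ne_one [Finite B] (cs : CoxeterSystem M W) (c : B → B → ℤˣ) (hc : IsSignChoice cs c) :
    q M c ≠ 1 := by
  classical
  have := Fintype.ofFinite B
  let c' : B → B → ZMod 2 := fun i j => if c i j = 1 then 0 else 1
  have hc' : Inv cs c' := by
    refine ⟨?_, ?_⟩
    · intro a b a' b' h1 h2 h3 h4 h5
      simp only [c']
      rw [hc.conj a b a' b' h1 h2 h3 h4 h5]
    · intro a b h1 h2
      simp only [c']
      rw [hc.symm a b h1 h2]
  obtain ⟨φ, _, hq⟩ := exists_lift (M := M) (c := c) (G := Equiv.Perm (W × ZMod 2))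
    (fun s => AP cs c' s) (QP W) (fun s => by rw [pow_two]; exact AP_sq cs c' s)
    (by rw [pow_two]; exact QP_sq) (fun s => QP_comm cs c' s)
    (fun s t h h0 hst => by
      rw [AP_rel cs hc' h h0, if_pos]
      simp [c', hst])
    (fun s t h h0 hst => by
      rw [AP_rel cs hc' h h0, if_neg]
      simp [c', hst])
  intro h
  rw [h, map_one] at hq
  exact QP_ne hq.symm

/-- the homomorphism `ℤ/2 → W'` that sends the generator to `q` -/
def iota (M : CoxeterMatrix B) (c : B → B → ℤˣ) : Multiplicative (ZMod 2) →* Ext M c where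
  toFun x := q M c ^ (Multiplicative.toAdd x).val
  map_one' := by simp
  map_mul' x y := by
    have hq := q_sq M c
    have key : ∀ a b : ZMod 2, q M c ^ (a + b).val = q M c ^ a.val * q M c ^ b.val := by
      intro a b
      rw [← pow_add]
      have h2 : (a + b).val = (a.val + b.val) % 2 := ZMod.val_add a b
      rw [h2]
      conv_rhs => rw [← Nat.mod_add_div (a.val + b.val) 2]
      rw [pow_add, pow_mul, hq, one_pow, mul_one]
    exact key _ _

/-- **Affirmative answer to Q1.** For every Coxeter group `(W, S)` with `S` finite and every sign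
choice `c`, the sequence `1 → ℤ/2 → W' → W → 1` is exact, where `ℤ/2 → W'` sends the generator to
`q` and `W' → W` sends `s` to `s` and `q` to `1`. In particular `q ≠ 1`. -/
theorem result [Finite B] (cs : CoxeterSystem M W) (c : B → B → ℤˣ) (hc : IsSignChoice cs c) :
    q M c ≠ 1 ∧
    ∃ (ι : Multiplicative (ZMod 2) →* Ext M c) (π : Ext M c →* W),
      ι (Multiplicative.ofAdd 1) = q M c ∧ (∀ s, π (gen M c s) = cs.simple s) ∧ π (q M c) = 1 ∧
      Function.Injective ι ∧ ι.range = π.ker ∧ Function.Surjective π := by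
  have hne := q_ne_one cs c hc
  refine ⟨hne, ?_⟩
  obtain ⟨π, hπ, hπq⟩ := exists_lift (M := M) (c := c) (G := W) cs.simple 1
    (fun s => by rw [pow_two]; exact cs.simple_mul_simple_self s) (one_pow 2)
    (fun s => by rw [one_mul, mul_one]) (fun s t _ _ _ => cs.simple_mul_simple_pow s t)
    (fun s t _ _ _ => cs.simple_mul_simple_pow s t)
  have hι : iota M c (Multiplicative.ofAdd 1) = q M c := by
    change q M c ^ (1 : ZMod 2).val = q M c
    have : (1 : ZMod 2).val = 1 := rfl
    rw [this, pow_one]
  refine ⟨iota M c, π, hι, hπ, hπq, ?_, ?_, ?_⟩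
  · rw [injective_iff_map_eq_one]
    intro x hx
    have key : ∀ a : ZMod 2, q M c ^ a.val = 1 → a = 0 := by
      intro a ha
      by_contra hne'
      have h2 : ∀ a : ZMod 2, a ≠ 0 → a = 1 := by decide
      have : a = 1 := h2 a hne'
      subst this
      have h1 : (1 : ZMod 2).val = 1 := rfl
      rw [h1, pow_one] at ha
      exact hne ha
    have := key (Multiplicative.toAdd x) hx
    exact Multiplicative.toAdd.injective this
  · have hN : (Subgroup.zpowers (q M c)).Normal := by
      refine ⟨fun n hn g => ?_⟩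
      obtain ⟨k, rfl⟩ := Subgroup.mem_zpowers_iff.mp hn
      have hcomm : Commute g (q M c) := (q_central M c g).symm
      rw [(hcomm.zpow_right k).eq, mul_inv_cancel_right]
      exact Subgroup.mem_zpowers_iff.mpr ⟨k, rfl⟩
    have hmkq : (QuotientGroup.mk (q M c) : Ext M c ⧸ Subgroup.zpowers (q M c)) = 1 :=
      (QuotientGroup.eq_one_iff _).mpr (Subgroup.mem_zpowers _)
    have hlift : M.IsLiftable (fun s => (QuotientGroup.mk (gen M c s) :
        Ext M c ⧸ Subgroup.zpowers (q M c))) := by
      intro s t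
      by_cases hst : s = t
      · subst hst
        rw [M.diagonal, pow_one, ← QuotientGroup.mk_mul, ← pow_two, gen_sq]
        rfl
      · by_cases h0 : M s t = 0
        · rw [h0, pow_zero]
        · rw [← QuotientGroup.mk_mul, ← QuotientGroup.mk_pow]
          rcases Int.units_eq_one_or (c s t) with h | h
          · rw [rel_plus M c hst h0 h]; rfl
          · rw [rel_minus M c hst h0 h]; exact hmkq
    have hcomp : (cs.lift ⟨_, hlift⟩).comp π = QuotientGroup.mk' (Subgroup.zpowers (q M c)) := by
      apply hom_ext'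
      · intro s
        rw [MonoidHom.comp_apply, hπ, cs.lift_apply_simple hlift]
        rfl
      · rw [MonoidHom.comp_apply, hπq, map_one]
        exact hmkq.symm
    apply le_antisymm
    · rintro _ ⟨x, rfl⟩
      rw [MonoidHom.mem_ker]
      change π (q M c ^ _) = 1
      rw [map_pow, hπq, one_pow]
    · intro x hx
      rw [MonoidHom.mem_ker] at hx
      have h1 := DFunLike.congr_fun hcomp x
      rw [MonoidHom.comp_apply, hx, map_one] at h1
      have h2 : x ∈ Subgroup.zpowers (q M c) := (QuotientGroup.eq_one_iff x).mp h1.symm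
      obtain ⟨k, rfl⟩ := Subgroup.mem_zpowers_iff.mp h2
      exact ⟨Multiplicative.ofAdd 1 ^ k, by rw [map_zpow, hι]⟩
  · rw [← MonoidHom.range_eq_top, ← top_le_iff, ← cs.subgroup_closure_range_simple,
      Subgroup.closure_le]
    rintro _ ⟨s, rfl⟩
    exact ⟨gen M c s, hπ s⟩

end Pool.Agent.Results.MP_07fa45_al.ExtensionExact
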